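import Pool.Agent.R444.FK.Sub

/-!
Lower bounds for the induced distance.
-/

set_option autoImplicit false

open MeasureTheory Complex Set

namespace Pool.Agent.R444.FK

variable {n : ℕ}

/-- the integral defining the distance, without the normalizing constant -/
noncomputable def DD (α : ℝ) (z w : EE n) : ℝ :=
  ∫ u : EE n, ‖cexp (α * inner ℂ u z) - cexp (α * inner ℂ u w)‖ * Real.exp (-(α / 2 * ‖u‖ ^ 2))

/-- the shifted integral -/
noncomputable def AA (α : ℝ) (q : ℂ) (o : EE n) : ℝ :=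
  ∫ v : EE n, ‖1 - q * cexp (α * inner ℂ v o)‖ * Real.exp (-(α / 2 * ‖v‖ ^ 2))

theorem DD_symm (α : ℝ) (z w : EE n) : DD α z w = DD α w z := by
  unfold DD
  congr 1
  funext u
  rw [norm_sub_rev]

theorem DD_eq (α : ℝ) (z w : EE n) :
    DD α z w = Real.exp (α / 2 * ‖z‖ ^ 2) * AA α (cexp (α * inner ℂ z (w - z))) (w - z) := by
  unfold DD AA
  rw [← integral_const_mul, ← integral_add_right_eq_self _ z]
  congr 1
  funext v
  have h1 : cexp (α * inner ℂ (v + z) z) - cexp (α * inner ℂ (v + z) w) =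
      cexp (α * inner ℂ (v + z) z) * (1 - cexp (α * inner ℂ z (w - z)) *
        cexp (α * inner ℂ v (w - z))) := by
    rw [mul_sub, mul_one, ← Complex.exp_add, ← Complex.exp_add]
    congr 2
    rw [inner_sub_right, inner_sub_right, inner_add_left, inner_add_left]
    ring
  rw [h1, norm_mul, Complex.norm_exp]
  have h2 : ((α : ℂ) * inner ℂ (v + z) z).re = α * ((inner ℂ v z).re + ‖z‖ ^ 2) := by
    rw [Complex.re_ofReal_mul, inner_add_left, Complex.add_re]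
    congr 2
    rw [inner_self_eq_norm_sq_to_K]
    norm_cast
  have h3 : ‖v + z‖ ^ 2 = ‖v‖ ^ 2 + 2 * (inner ℂ v z).re + ‖z‖ ^ 2 := by
    have := @norm_add_sq ℂ (EE n) _ _ _ v z
    exact this
  rw [h2, h3]
  have h4 : Real.exp (α * ((inner ℂ v z).re + ‖z‖ ^ 2)) *
      Real.exp (-(α / 2 * (‖v‖ ^ 2 + 2 * (inner ℂ v z).re + ‖z‖ ^ 2))) =
      Real.exp (α / 2 * ‖z‖ ^ 2) * Real.exp (-(α / 2 * ‖v‖ ^ 2)) := by
    rw [← Real.exp_add, ← Real.exp_add]
    congr 1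
    ring
  calc Real.exp (α * ((inner ℂ v z).re + ‖z‖ ^ 2)) *
        ‖1 - cexp (α * inner ℂ z (w - z)) * cexp (α * inner ℂ v (w - z))‖ *
        Real.exp (-(α / 2 * (‖v‖ ^ 2 + 2 * (inner ℂ v z).re + ‖z‖ ^ 2)))
      = (Real.exp (α * ((inner ℂ v z).re + ‖z‖ ^ 2)) *
        Real.exp (-(α / 2 * (‖v‖ ^ 2 + 2 * (inner ℂ v z).re + ‖z‖ ^ 2)))) *
        ‖1 - cexp (α * inner ℂ z (w - z)) * cexp (α * inner ℂ v (w - z))‖ := by ring
    _ = _ := by rw [h4]; ring

theorem integrable_gauss {b : ℝ} (hb : 0 < b) :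
    Integrable (fun v : EE n => Real.exp (-(b * ‖v‖ ^ 2))) := by
  have h1 := GaussianFourier.integrable_cexp_neg_mul_sq_norm_add (V := EE n) (b := (b : ℂ))
    (by simpa using hb) 0 0
  refine h1.norm.congr (Filter.Eventually.of_forall fun v => ?_)
  simp only [zero_mul, add_zero]
  rw [Complex.norm_exp]
  congr 1
  rw [show -(b : ℂ) * (‖v‖ : ℂ) ^ 2 = ((-(b * ‖v‖ ^ 2) : ℝ) : ℂ) by push_cast; ring, ofReal_re]

theorem integrable_AA {α : ℝ} (hα : 0 < α) (q : ℂ) (o : EE n) :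
    Integrable (fun v : EE n => ‖1 - q * cexp (α * inner ℂ v o)‖ *
      Real.exp (-(α / 2 * ‖v‖ ^ 2))) := by
  have h1 := (integrable_gauss (n := n) (b := α / 4) (by positivity)).const_mul
    (1 + ‖q‖ * Real.exp (α * ‖o‖ ^ 2))
  refine h1.mono' (by fun_prop) (Filter.Eventually.of_forall fun v => ?_)
  rw [Real.norm_of_nonneg (by positivity)]
  have h2 : ‖cexp (α * inner ℂ v o)‖ ≤ Real.exp (α * ‖o‖ ^ 2) * Real.exp (α / 4 * ‖v‖ ^ 2) := by
    rw [Complex.norm_exp, ← Real.exp_add, Real.exp_le_exp, Complex.re_ofReal_mul]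
    have h3 : (inner ℂ v o).re ≤ ‖v‖ * ‖o‖ :=
      (Complex.re_le_norm _).trans (norm_inner_le_norm v o)
    have h4 : ‖v‖ * ‖o‖ ≤ ‖o‖ ^ 2 + 1 / 4 * ‖v‖ ^ 2 := by nlinarith [sq_nonneg (‖o‖ - ‖v‖ / 2)]
    nlinarith
  have h3 : ‖1 - q * cexp (α * inner ℂ v o)‖ ≤
      (1 + ‖q‖ * Real.exp (α * ‖o‖ ^ 2)) * Real.exp (α / 4 * ‖v‖ ^ 2) := by
    have h4 : 1 ≤ Real.exp (α / 4 * ‖v‖ ^ 2) := Real.one_le_exp (by positivity)
    calc ‖1 - q * cexp (α * inner ℂ v o)‖ ≤ ‖(1 : ℂ)‖ + ‖q * cexp (α * inner ℂ v o)‖ :=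
          norm_sub_le _ _
      _ ≤ Real.exp (α / 4 * ‖v‖ ^ 2) +
          ‖q‖ * (Real.exp (α * ‖o‖ ^ 2) * Real.exp (α / 4 * ‖v‖ ^ 2)) := by
          rw [norm_mul, norm_one]
          gcongr
      _ = _ := by ring
  calc ‖1 - q * cexp (α * inner ℂ v o)‖ * Real.exp (-(α / 2 * ‖v‖ ^ 2))
      ≤ (1 + ‖q‖ * Real.exp (α * ‖o‖ ^ 2)) * Real.exp (α / 4 * ‖v‖ ^ 2) *
        Real.exp (-(α / 2 * ‖v‖ ^ 2)) := by gcongr
    _ = (1 + ‖q‖ * Real.exp (α * ‖o‖ ^ 2)) * Real.exp (-(α / 4 * ‖v‖ ^ 2)) := by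
        rw [mul_assoc, ← Real.exp_add]
        congr 2
        ring

/-- a nonnegative integrable function which is at least `m` on a ball -/
theorem ball_le {φ : EE n → ℝ} (h0 : ∀ v, 0 ≤ φ v) (hφ : Integrable φ) (a : EE n) (r m : ℝ)
    (h : ∀ v ∈ Metric.closedBall a r, m ≤ φ v) :
    m * volume.real (Metric.closedBall a r) ≤ ∫ v, φ v := by
  have h1 : m * volume.real (Metric.closedBall a r) = ∫ _v in Metric.closedBall a r, m := by
    rw [setIntegral_const, smul_eq_mul, mul_comm]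
  rw [h1]
  refine (setIntegral_mono_on (integrableOn_const (isCompact_closedBall a r).measure_ne_top)
    hφ.integrableOn Metric.isClosed_closedBall.measurableSet h).trans ?_
  exact setIntegral_le_integral hφ (Filter.Eventually.of_forall h0)

/-- `‖ω‖ ≥ 1` -/
theorem AA_far {α : ℝ} (hα : 0 < α) : ∃ c : ℝ, 0 < c ∧ ∀ (q : ℂ) (o : EE n), 1 ≤ ‖o‖ →
    c ≤ AA α q o := by
  obtain ⟨ρ, hρ⟩ : ∃ ρ : ℝ, ρ = Real.exp (-(α / 2 * (1 + Real.pi / α) ^ 2)) := ⟨_, rfl⟩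
  have hρ0 : 0 < ρ := by rw [hρ]; exact Real.exp_pos _
  have hvol : 0 < volume.real (Metric.closedBall (0 : EE n) 1) := by
    rw [Measure.real, ENNReal.toReal_pos_iff]
    exact ⟨Metric.measure_closedBall_pos _ _ one_pos,
      (isCompact_closedBall _ _).measure_lt_top⟩
  refine ⟨ρ * volume.real (Metric.closedBall (0 : EE n) 1), by positivity, fun q o ho => ?_⟩
  have hopos : 0 < ‖o‖ := by linarith
  have hpi := Real.pi_pos
  obtain ⟨t, ht⟩ : ∃ t : ℂ, t = -(Real.pi / (α * ‖o‖ ^ 2) : ℝ) * I := ⟨_, rfl⟩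
  obtain ⟨s, hs⟩ : ∃ s : EE n, s = t • o := ⟨_, rfl⟩
  have hinner : (α : ℂ) * inner ℂ s o = Real.pi * I := by
    rw [hs, inner_smul_left, inner_self_eq_norm_sq_to_K, ht]
    simp only [map_neg, map_mul, conj_ofReal, conj_I]
    have h1 : (‖o‖ : ℂ) ≠ 0 := by exact_mod_cast hopos.ne'
    have h2 : (α : ℂ) ≠ 0 := by exact_mod_cast hα.ne'
    push_cast
    field_simp
    simp
  have hsn : ‖s‖ ≤ Real.pi / α := by
    rw [hs, norm_smul, ht, norm_mul, norm_neg, Complex.norm_real, norm_I, mul_one,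
      Real.norm_of_nonneg (by positivity)]
    have : Real.pi / (α * ‖o‖ ^ 2) * ‖o‖ = Real.pi / α / ‖o‖ := by
      field_simp
    rw [this]
    exact div_le_self (by positivity) ho
  have hint := integrable_AA hα q o
  have hint2 : Integrable (fun v : EE n => ‖1 - q * cexp (α * inner ℂ (v + s) o)‖ *
      Real.exp (-(α / 2 * ‖v + s‖ ^ 2))) := hint.comp_add_right s
  have h2A : 2 * AA α q o = ∫ v : EE n, (‖1 - q * cexp (α * inner ℂ v o)‖ *
      Real.exp (-(α / 2 * ‖v‖ ^ 2)) + ‖1 - q * cexp (α * inner ℂ (v + s) o)‖ *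
      Real.exp (-(α / 2 * ‖v + s‖ ^ 2))) := by
    rw [integral_add hint hint2]
    have := integral_add_right_eq_self (μ := (volume : Measure (EE n)))
      (fun v : EE n => ‖1 - q * cexp (α * inner ℂ v o)‖ * Real.exp (-(α / 2 * ‖v‖ ^ 2))) s
    rw [this]
    unfold AA
    ring
  have hlow := ball_le (n := n) (φ := fun v : EE n => (‖1 - q * cexp (α * inner ℂ v o)‖ *
      Real.exp (-(α / 2 * ‖v‖ ^ 2)) + ‖1 - q * cexp (α * inner ℂ (v + s) o)‖ *
      Real.exp (-(α / 2 * ‖v + s‖ ^ 2)))) (fun v => by positivity) (hint.add hint2) 0 1 (2 * ρ)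
      (by
        intro v hv
        rw [mem_closedBall_zero_iff] at hv
        have e1 : ρ ≤ Real.exp (-(α / 2 * ‖v‖ ^ 2)) := by
          rw [hρ, Real.exp_le_exp, neg_le_neg_iff]
          gcongr
          have : 0 < Real.pi / α := by positivity
          linarith
        have e2 : ρ ≤ Real.exp (-(α / 2 * ‖v + s‖ ^ 2)) := by
          rw [hρ, Real.exp_le_exp, neg_le_neg_iff]
          gcongr
          exact (norm_add_le _ _).trans (by linarith)
        have e3 : cexp (α * inner ℂ (v + s) o) = -cexp (α * inner ℂ v o) := by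
          rw [inner_add_left, mul_add, Complex.exp_add, hinner, Complex.exp_pi_mul_I]
          ring
        have e4 : 2 ≤ ‖1 - q * cexp (α * inner ℂ v o)‖ +
            ‖1 - q * cexp (α * inner ℂ (v + s) o)‖ := by
          rw [e3]
          calc (2 : ℝ) = ‖(1 - q * cexp (α * inner ℂ v o)) +
                (1 - q * -cexp (α * inner ℂ v o))‖ := by
                rw [show (1 - q * cexp (α * inner ℂ v o)) + (1 - q * -cexp (α * inner ℂ v o)) =
                  2 by ring]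
                simp
            _ ≤ _ := norm_add_le _ _
        show 2 * ρ ≤ ‖1 - q * cexp (α * inner ℂ v o)‖ *
          Real.exp (-(α / 2 * ‖v‖ ^ 2)) + ‖1 - q * cexp (α * inner ℂ (v + s) o)‖ *
          Real.exp (-(α / 2 * ‖v + s‖ ^ 2))
        calc 2 * ρ ≤ (‖1 - q * cexp (α * inner ℂ v o)‖ +
            ‖1 - q * cexp (α * inner ℂ (v + s) o)‖) * ρ := by gcongr
          _ = ‖1 - q * cexp (α * inner ℂ v o)‖ * ρ +
            ‖1 - q * cexp (α * inner ℂ (v + s) o)‖ * ρ := by ring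
          _ ≤ _ := by gcongr)
  rw [← h2A] at hlow
  linarith

/-- elementary inequalities for the exponential -/
theorem exp_ineq {x : ℂ} (hx : ‖x‖ ≤ 1 / 2) :
    ‖x‖ ≤ ‖cexp x - cexp (-x)‖ ∧ ‖cexp x + cexp (-x) - 2‖ ≤ ‖x‖ := by
  have h1 := Complex.norm_exp_sub_one_sub_id_le (x := x) (by linarith)
  have h2 := Complex.norm_exp_sub_one_sub_id_le (x := -x) (by rw [norm_neg]; linarith)
  rw [norm_neg] at h2
  have hx0 := norm_nonneg x
  constructor
  · have h3 : 2 * x = (cexp x - cexp (-x)) - (cexp x - 1 - x) + (cexp (-x) - 1 - -x) := by ring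
    have h4 : ‖2 * x‖ ≤ ‖cexp x - cexp (-x)‖ + ‖cexp x - 1 - x‖ + ‖cexp (-x) - 1 - -x‖ := by
      calc ‖2 * x‖ = ‖(cexp x - cexp (-x)) - (cexp x - 1 - x) + (cexp (-x) - 1 - -x)‖ := by
            rw [← h3]
        _ ≤ ‖(cexp x - cexp (-x)) - (cexp x - 1 - x)‖ + ‖cexp (-x) - 1 - -x‖ := norm_add_le _ _
        _ ≤ _ := by gcongr; exact norm_sub_le _ _
    rw [norm_mul] at h4
    have h5 : ‖(2 : ℂ)‖ = 2 := by norm_num
    rw [h5] at h4
    nlinarith
  · have h3 : cexp x + cexp (-x) - 2 = (cexp x - 1 - x) + (cexp (-x) - 1 - -x) := by ring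
    rw [h3]
    refine (norm_add_le _ _).trans ?_
    nlinarith

/-- `‖ω‖ ≤ 1` -/
theorem AA_near {α : ℝ} (hα : 0 < α) : ∃ c : ℝ, 0 < c ∧ ∀ (q : ℂ) (o : EE n), o ≠ 0 → ‖o‖ ≤ 1 →
    c * (‖1 - q‖ + ‖q‖ * ‖o‖) ≤ AA α q o := by
  obtain ⟨δ, hδ⟩ : ∃ δ : ℝ, δ = min 1 (1 / (2 * α)) := ⟨_, rfl⟩
  have hδ0 : 0 < δ := by rw [hδ]; positivity
  have hδ1 : δ ≤ 1 := by rw [hδ]; exact min_le_left _ _
  have hδα : α * δ ≤ 1 / 2 := by
    have : δ ≤ 1 / (2 * α) := by rw [hδ]; exact min_le_right _ _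
    calc α * δ ≤ α * (1 / (2 * α)) := by gcongr
      _ = 1 / 2 := by field_simp
  obtain ⟨ρ, hρ⟩ : ∃ ρ : ℝ, ρ = Real.exp (-(α / 2 * 1 ^ 2)) := ⟨_, rfl⟩
  have hρ0 : 0 < ρ := by rw [hρ]; exact Real.exp_pos _
  have hvolc : ∀ a : EE n, volume.real (Metric.closedBall a (δ / 4)) =
      volume.real (Metric.closedBall (0 : EE n) (δ / 4)) := by
    intro a
    rw [Measure.real, Measure.real, Measure.addHaar_closedBall_center]
  obtain ⟨V, hV⟩ : ∃ V : ℝ, V = volume.real (Metric.closedBall (0 : EE n) (δ / 4)) := ⟨_, rfl⟩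
  have hV0 : 0 < V := by
    rw [hV, Measure.real, ENNReal.toReal_pos_iff]
    exact ⟨Metric.measure_closedBall_pos _ _ (by positivity),
      (isCompact_closedBall _ _).measure_lt_top⟩
  -- the constant
  obtain ⟨κ, hκ⟩ : ∃ κ : ℝ, κ = min (1 / 2) (α * (δ / 4) / 2) := ⟨_, rfl⟩
  have hκ0 : 0 < κ := by rw [hκ]; positivity
  refine ⟨κ * ρ * V / 2, by positivity, fun q o ho0 ho => ?_⟩
  have hopos : 0 < ‖o‖ := norm_pos_iff.mpr ho0
  have hint := integrable_AA hα q o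
  have hint2 : Integrable (fun v : EE n => ‖1 - q * cexp (α * inner ℂ (-v) o)‖ *
      Real.exp (-(α / 2 * ‖-v‖ ^ 2))) := hint.comp_neg
  have h2A : 2 * AA α q o = ∫ v : EE n, (‖1 - q * cexp (α * inner ℂ v o)‖ *
      Real.exp (-(α / 2 * ‖v‖ ^ 2)) + ‖1 - q * cexp (α * inner ℂ (-v) o)‖ *
      Real.exp (-(α / 2 * ‖-v‖ ^ 2))) := by
    rw [integral_add hint hint2]
    have := integral_neg_eq_self (fun v : EE n => ‖1 - q * cexp (α * inner ℂ v o)‖ *
      Real.exp (-(α / 2 * ‖v‖ ^ 2))) volume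
    rw [this]
    unfold AA
    ring
  obtain ⟨a, ha⟩ : ∃ a : EE n, a = ((δ / 2 / ‖o‖ : ℝ) : ℂ) • o := ⟨_, rfl⟩
  have han : ‖a‖ = δ / 2 := by
    rw [ha, norm_smul, Complex.norm_real, Real.norm_of_nonneg (by positivity)]
    field_simp
  have hao : ‖inner ℂ a o‖ = δ / 2 * ‖o‖ := by
    rw [ha, inner_smul_left, inner_self_eq_norm_sq_to_K, norm_mul, RCLike.norm_conj,
      Complex.norm_real, Real.norm_of_nonneg (by positivity)]
    have : ‖((‖o‖ : ℝ) : ℂ) ^ 2‖ = ‖o‖ ^ 2 := by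
      rw [norm_pow, Complex.norm_real, Real.norm_of_nonneg (norm_nonneg _)]
    erw [this]
    field_simp
  have hlow := ball_le (n := n) (φ := fun v : EE n => (‖1 - q * cexp (α * inner ℂ v o)‖ *
      Real.exp (-(α / 2 * ‖v‖ ^ 2)) + ‖1 - q * cexp (α * inner ℂ (-v) o)‖ *
      Real.exp (-(α / 2 * ‖-v‖ ^ 2)))) (fun v => by positivity) (hint.add hint2) a (δ / 4)
      (κ * (‖1 - q‖ + ‖q‖ * ‖o‖) * ρ)
      (by
        intro v hv
        rw [mem_closedBall_iff_norm] at hv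
        have hvn : ‖v‖ ≤ δ := by
          calc ‖v‖ = ‖(v - a) + a‖ := by rw [sub_add_cancel]
            _ ≤ ‖v - a‖ + ‖a‖ := norm_add_le _ _
            _ ≤ δ := by rw [han]; linarith
        obtain ⟨x, hx⟩ : ∃ x : ℂ, x = α * inner ℂ v o := ⟨_, rfl⟩
        have hx' : (α : ℂ) * inner ℂ (-v) o = -x := by rw [hx, inner_neg_left]; ring
        have hxn : ‖x‖ ≤ 1 / 2 := by
          rw [hx, norm_mul, Complex.norm_real, Real.norm_of_nonneg hα.le]
          calc α * ‖inner ℂ v o‖ ≤ α * (‖v‖ * ‖o‖) := by gcongr; exact norm_inner_le_norm v o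
            _ ≤ α * (δ * 1) := by gcongr
            _ ≤ 1 / 2 := by linarith
        have hxl : α * (δ / 4) * ‖o‖ ≤ ‖x‖ := by
          rw [hx, norm_mul, Complex.norm_real, Real.norm_of_nonneg hα.le, mul_assoc]
          gcongr
          have h1 : ‖inner ℂ a o‖ ≤ ‖inner ℂ v o‖ + ‖inner ℂ (v - a) o‖ := by
            have h2 : inner ℂ a o = inner ℂ v o - inner ℂ (v - a) o := by
              rw [inner_sub_left]; ring
            rw [h2]
            exact norm_sub_le _ _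
          have h2 : ‖inner ℂ (v - a) o‖ ≤ δ / 4 * ‖o‖ :=
            (norm_inner_le_norm _ _).trans (by gcongr)
          rw [hao] at h1
          linarith
        obtain ⟨i1, i2⟩ := exp_ineq hxn
        have e1 : ρ ≤ Real.exp (-(α / 2 * ‖v‖ ^ 2)) := by
          rw [hρ, Real.exp_le_exp, neg_le_neg_iff]
          gcongr
          linarith
        have e2 : ρ ≤ Real.exp (-(α / 2 * ‖-v‖ ^ 2)) := by rw [norm_neg]; exact e1
        have j1 : ‖q‖ * ‖x‖ ≤ ‖1 - q * cexp x‖ + ‖1 - q * cexp (-x)‖ := by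
          calc ‖q‖ * ‖x‖ ≤ ‖q‖ * ‖cexp x - cexp (-x)‖ := by gcongr
            _ = ‖(1 - q * cexp (-x)) - (1 - q * cexp x)‖ := by
                rw [← norm_mul]; congr 1; ring
            _ ≤ ‖1 - q * cexp (-x)‖ + ‖1 - q * cexp x‖ := norm_sub_le _ _
            _ = _ := add_comm _ _
        have j2 : 2 * ‖1 - q‖ ≤ (‖1 - q * cexp x‖ + ‖1 - q * cexp (-x)‖) + ‖q‖ * ‖x‖ := by
          calc 2 * ‖1 - q‖ = ‖2 * (1 - q)‖ := by rw [norm_mul]; norm_num
            _ = ‖((1 - q * cexp x) + (1 - q * cexp (-x))) + q * (cexp x + cexp (-x) - 2)‖ := by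
                congr 1; ring
            _ ≤ ‖(1 - q * cexp x) + (1 - q * cexp (-x))‖ + ‖q * (cexp x + cexp (-x) - 2)‖ :=
                norm_add_le _ _
            _ ≤ (‖1 - q * cexp x‖ + ‖1 - q * cexp (-x)‖) + ‖q‖ * ‖x‖ := by
                rw [norm_mul]
                gcongr
                exact norm_add_le _ _
        have j3 : κ * (‖1 - q‖ + ‖q‖ * ‖o‖) ≤ ‖1 - q * cexp x‖ + ‖1 - q * cexp (-x)‖ := by
          have k1 : κ ≤ 1 / 2 := by rw [hκ]; exact min_le_left _ _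
          have k2 : κ ≤ α * (δ / 4) / 2 := by rw [hκ]; exact min_le_right _ _
          have k3 : κ * ‖1 - q‖ ≤ 1 / 2 * ‖1 - q‖ := by gcongr
          have k4 : κ * (‖q‖ * ‖o‖) ≤ 1 / 2 * (‖q‖ * ‖x‖) := by
            calc κ * (‖q‖ * ‖o‖) ≤ α * (δ / 4) / 2 * (‖q‖ * ‖o‖) := by gcongr
              _ = 1 / 2 * (‖q‖ * (α * (δ / 4) * ‖o‖)) := by ring
              _ ≤ 1 / 2 * (‖q‖ * ‖x‖) := by gcongr
          linarith
        show κ * (‖1 - q‖ + ‖q‖ * ‖o‖) * ρ ≤ ‖1 - q * cexp (α * inner ℂ v o)‖ *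
          Real.exp (-(α / 2 * ‖v‖ ^ 2)) + ‖1 - q * cexp (α * inner ℂ (-v) o)‖ *
          Real.exp (-(α / 2 * ‖-v‖ ^ 2))
        rw [hx', ← hx]
        calc κ * (‖1 - q‖ + ‖q‖ * ‖o‖) * ρ ≤ (‖1 - q * cexp x‖ + ‖1 - q * cexp (-x)‖) * ρ := by
              gcongr
          _ = ‖1 - q * cexp x‖ * ρ + ‖1 - q * cexp (-x)‖ * ρ := by ring
          _ ≤ _ := by gcongr)
  rw [← h2A, hvolc, ← hV] at hlow
  linarith

end Pool.Agent.R444.FK
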