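import Pool.Agent.R444.FK.Ker

/-!
Local estimates for entire functions, and a continuous majorant in `L^p`.
-/

set_option autoImplicit false

open MeasureTheory Complex Set

namespace Pool.Agent.R444.FK

variable {n : ℕ}

/-- the weighted modulus -/
noncomputable def hh (α : ℝ) (f : EE n → ℂ) (z : EE n) : ℝ :=
  ‖f z‖ * Real.exp (-(α / 2 * ‖z‖ ^ 2))

theorem hh_nonneg (α : ℝ) (f : EE n → ℂ) (z : EE n) : 0 ≤ hh α f z := by unfold hh; positivity

/-- the translate -/
noncomputable def tr (α : ℝ) (f : EE n → ℂ) (z : EE n) (v : EE n) : ℂ :=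
  f (z + v) * cexp (-(α * inner ℂ z v))

theorem tr_diff (α : ℝ) {f : EE n → ℂ} (hf : Differentiable ℂ f) (z : EE n) :
    Differentiable ℂ (tr α f z) := by
  have h1 : Differentiable ℂ (fun v : EE n => inner ℂ z v) := (innerSL ℂ z).differentiable
  unfold tr
  have h2 : Differentiable ℂ (fun v : EE n => f (z + v)) := hf.comp (by fun_prop)
  exact h2.mul ((h1.const_mul (α : ℂ)).neg.cexp)

theorem norm_tr (α : ℝ) (f : EE n → ℂ) (z v : EE n) :
    ‖tr α f z v‖ = hh α f (z + v) * Real.exp (α / 2 * ‖z‖ ^ 2) * Real.exp (α / 2 * ‖v‖ ^ 2) := by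
  have h3 : ‖z + v‖ ^ 2 = ‖z‖ ^ 2 + 2 * (inner ℂ z v).re + ‖v‖ ^ 2 :=
    @norm_add_sq ℂ (EE n) _ _ _ z v
  rw [tr, norm_mul, Complex.norm_exp, neg_re, Complex.re_ofReal_mul, hh, h3, mul_assoc, mul_assoc,
    ← Real.exp_add, ← Real.exp_add]
  congr 2
  ring

theorem local_est {α : ℝ} (hα : 0 < α) {f : EE n → ℂ} (hf : Differentiable ℂ f) (z w : EE n)
    (h0 : w - z ≠ 0) (h1 : ‖w - z‖ ≤ 1) {m : ℝ} (hm : ∀ ξ : EE n, ‖ξ‖ ≤ 2 → hh α f (z + ξ) ≤ m) :
    ‖f z - f w‖ ≤ Real.exp (2 * α) * Real.exp (α / 2 * ‖z‖ ^ 2) *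
      (‖1 - cexp (α * inner ℂ z (w - z))‖ + ‖cexp (α * inner ℂ z (w - z))‖ * ‖w - z‖) * m := by
  obtain ⟨o, ho⟩ : ∃ o : EE n, o = w - z := ⟨_, rfl⟩
  rw [← ho] at h0 h1 ⊢
  obtain ⟨q, hq⟩ : ∃ q : ℂ, q = cexp (α * inner ℂ z o) := ⟨_, rfl⟩
  rw [← hq]
  have hopos : 0 < ‖o‖ := norm_pos_iff.mpr h0
  have hF := tr_diff α hf z
  obtain ⟨Sb, hSb⟩ : ∃ Sb : ℝ, Sb = Real.exp (2 * α) * Real.exp (α / 2 * ‖z‖ ^ 2) * m := ⟨_, rfl⟩
  have hm0 : 0 ≤ m := (hh_nonneg α f (z + 0)).trans (hm 0 (by simp))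
  have hS : ∀ v : EE n, ‖v‖ ≤ 2 → ‖tr α f z v‖ ≤ Sb := by
    intro v hv
    rw [norm_tr, hSb]
    have h2 : Real.exp (α / 2 * ‖v‖ ^ 2) ≤ Real.exp (2 * α) := by
      rw [Real.exp_le_exp]
      have : ‖v‖ ^ 2 ≤ 2 ^ 2 := pow_le_pow_left₀ (norm_nonneg v) hv 2
      nlinarith
    calc hh α f (z + v) * Real.exp (α / 2 * ‖z‖ ^ 2) * Real.exp (α / 2 * ‖v‖ ^ 2)
        ≤ m * Real.exp (α / 2 * ‖z‖ ^ 2) * Real.exp (2 * α) := by
          gcongr
          exact hm v hv
      _ = _ := by ring
  have hf0 : tr α f z 0 = f z := by simp [tr]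
  have hfo : tr α f z o * q = f w := by
    rw [tr, hq, mul_assoc, ← Complex.exp_add, neg_add_cancel, Complex.exp_zero, mul_one, ho,
      add_sub_cancel]
  -- the one variable function
  obtain ⟨e, he⟩ : ∃ e : EE n, e = ((‖o‖⁻¹ : ℝ) : ℂ) • o := ⟨_, rfl⟩
  have hen : ‖e‖ = 1 := by
    rw [he, norm_smul, Complex.norm_real, Real.norm_of_nonneg (by positivity)]
    field_simp
  have hphi : Differentiable ℂ (fun t : ℂ => tr α f z (t • e)) := hF.comp (by fun_prop)
  have hder : ∀ t ∈ Metric.closedBall (0 : ℂ) 1, ‖deriv (fun t : ℂ => tr α f z (t • e)) t‖ ≤ Sb := by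
    intro t ht
    rw [mem_closedBall_zero_iff] at ht
    have h2 := Complex.norm_deriv_le_of_forall_mem_sphere_norm_le (c := t) (R := 1) (C := Sb)
      one_pos (hphi.diffContOnCl (s := Metric.ball t 1)) (by
        intro u hu
        rw [mem_sphere_iff_norm] at hu
        apply hS
        rw [norm_smul, hen, mul_one]
        calc ‖u‖ = ‖(u - t) + t‖ := by rw [sub_add_cancel]
          _ ≤ ‖u - t‖ + ‖t‖ := norm_add_le _ _
          _ ≤ 2 := by linarith)
    rwa [div_one] at h2
  have hmv : ‖tr α f z o - tr α f z 0‖ ≤ Sb * ‖o‖ := by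
    have h2 := (convex_closedBall (0 : ℂ) 1).norm_image_sub_le_of_norm_deriv_le
      (f := fun t : ℂ => tr α f z (t • e)) (C := Sb) (x := 0) (y := ((‖o‖ : ℝ) : ℂ))
      (fun t _ => hphi t) hder (by simp) (by
        rw [mem_closedBall_zero_iff, Complex.norm_real, Real.norm_of_nonneg (norm_nonneg o)]
        exact h1)
    simp only [zero_smul, sub_zero] at h2
    have h3 : ((‖o‖ : ℝ) : ℂ) • e = o := by
      rw [he, smul_smul, ← ofReal_mul, mul_inv_cancel₀ hopos.ne', ofReal_one, one_smul]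
    rw [h3, Complex.norm_real, Real.norm_of_nonneg (norm_nonneg o)] at h2
    exact h2
  have h2 : f z - f w = (1 - q) * tr α f z 0 - q * (tr α f z o - tr α f z 0) := by
    rw [← hfo, ← hf0]
    ring
  rw [h2]
  calc ‖(1 - q) * tr α f z 0 - q * (tr α f z o - tr α f z 0)‖
      ≤ ‖(1 - q) * tr α f z 0‖ + ‖q * (tr α f z o - tr α f z 0)‖ := norm_sub_le _ _
    _ ≤ ‖1 - q‖ * Sb + ‖q‖ * (Sb * ‖o‖) := by
        rw [norm_mul, norm_mul]
        gcongr
        exact hS 0 (by simp)
    _ = _ := by rw [hSb]; ring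

theorem hh_cont (α : ℝ) {f : EE n → ℂ} (hf : Continuous f) : Continuous (hh α f) := by
  unfold hh
  fun_prop

/-- local sub-mean value property of the weighted modulus -/
theorem hh_sub {α : ℝ} (hα : 0 < α) {f : EE n → ℂ} (hf : Differentiable ℂ f) {p : ℝ} (hp : 0 < p) :
    ∃ C : ℝ, 0 ≤ C ∧ ∀ ζ, hh α f ζ ^ p ≤
      C * ∫ v in Metric.closedBall (0 : EE n) 1, hh α f (ζ + v) ^ p := by
  have hvol : 0 < volume.real (Metric.closedBall (0 : EE n) 1) := by
    rw [Measure.real, ENNReal.toReal_pos_iff]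
    exact ⟨Metric.measure_closedBall_pos _ _ one_pos,
      (isCompact_closedBall _ _).measure_lt_top⟩
  refine ⟨Real.exp (α / 2) ^ p / volume.real (Metric.closedBall (0 : EE n) 1), by positivity,
    fun ζ => ?_⟩
  have h1 := subE (tr_diff α hf ζ) hp
  have hE : 0 < Real.exp (α / 2 * ‖ζ‖ ^ 2) := Real.exp_pos _
  have h2 : ‖tr α f ζ 0‖ ^ p = hh α f ζ ^ p * Real.exp (α / 2 * ‖ζ‖ ^ 2) ^ p := by
    rw [norm_tr, norm_zero, add_zero]
    simp only [ne_eq, OfNat.ofNat_ne_zero, not_false_eq_true, zero_pow, mul_zero, Real.exp_zero,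
      mul_one]
    rw [Real.mul_rpow (hh_nonneg α f ζ) hE.le]
  have hc := hh_cont α hf.continuous
  have hci : Continuous (fun v => hh α f (ζ + v) ^ p) :=
    (hc.comp (by fun_prop)).rpow_const fun v => Or.inr hp.le
  have h3 : ∫ v in Metric.closedBall (0 : EE n) 1, ‖tr α f ζ v‖ ^ p ≤
      ∫ v in Metric.closedBall (0 : EE n) 1,
        (Real.exp (α / 2 * ‖ζ‖ ^ 2) ^ p * Real.exp (α / 2) ^ p) * hh α f (ζ + v) ^ p := by
    apply setIntegral_mono_on
    · have : Continuous (fun v => ‖tr α f ζ v‖ ^ p) :=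
        (tr_diff α hf ζ).continuous.norm.rpow_const fun v => Or.inr hp.le
      exact this.continuousOn.integrableOn_compact (isCompact_closedBall _ _)
    · exact (continuous_const.mul hci).continuousOn.integrableOn_compact (isCompact_closedBall _ _)
    · exact Metric.isClosed_closedBall.measurableSet
    · intro v hv
      rw [mem_closedBall_zero_iff] at hv
      rw [norm_tr, Real.mul_rpow (mul_nonneg (hh_nonneg α f _) hE.le) (Real.exp_pos _).le,
        Real.mul_rpow (hh_nonneg α f _) hE.le]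
      have h4 : Real.exp (α / 2 * ‖v‖ ^ 2) ≤ Real.exp (α / 2) := by
        rw [Real.exp_le_exp]
        have : ‖v‖ ^ 2 ≤ 1 := pow_le_one₀ (norm_nonneg v) hv
        nlinarith
      calc hh α f (ζ + v) ^ p * Real.exp (α / 2 * ‖ζ‖ ^ 2) ^ p * Real.exp (α / 2 * ‖v‖ ^ 2) ^ p
          ≤ hh α f (ζ + v) ^ p * Real.exp (α / 2 * ‖ζ‖ ^ 2) ^ p * Real.exp (α / 2) ^ p := by
            have := hh_nonneg α f (ζ + v)
            gcongr
        _ = _ := by ring
  rw [integral_const_mul] at h3
  rw [h2] at h1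
  have h4 := h1.trans h3
  have hEp : 0 < Real.exp (α / 2 * ‖ζ‖ ^ 2) ^ p := by positivity
  have h5 : hh α f ζ ^ p * volume.real (Metric.closedBall (0 : EE n) 1) ≤
      Real.exp (α / 2) ^ p * ∫ v in Metric.closedBall (0 : EE n) 1, hh α f (ζ + v) ^ p := by
    have h6 : Real.exp (α / 2 * ‖ζ‖ ^ 2) ^ p *
        (hh α f ζ ^ p * volume.real (Metric.closedBall (0 : EE n) 1)) ≤
        Real.exp (α / 2 * ‖ζ‖ ^ 2) ^ p *
        (Real.exp (α / 2) ^ p * ∫ v in Metric.closedBall (0 : EE n) 1, hh α f (ζ + v) ^ p) := by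
      calc _ = hh α f ζ ^ p * Real.exp (α / 2 * ‖ζ‖ ^ 2) ^ p *
            volume.real (Metric.closedBall (0 : EE n) 1) := by ring
        _ ≤ _ := h4
        _ = _ := by ring
    exact le_of_mul_le_mul_left h6 hEp
  rw [div_mul_eq_mul_div, le_div_iff₀ hvol]
  exact h5

/-- a continuous majorant -/
theorem majorant {α : ℝ} (hα : 0 < α) {f : EE n → ℂ} (hf : Differentiable ℂ f) {p : ENNReal}
    (hp : p ≠ 0) (hfp : MemLp (fun z => f z * Real.exp (-(α / 2 * ‖z‖ ^ 2))) p volume) :
    ∃ g : EE n → ℝ, Continuous g ∧ (∀ z, 0 ≤ g z) ∧ MemLp g p volume ∧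
      ∀ z ξ : EE n, ‖ξ‖ ≤ 2 → hh α f (z + ξ) ≤ g z := by
  have hnorm : ∀ z, ‖f z * (Real.exp (-(α / 2 * ‖z‖ ^ 2)) : ℂ)‖ = hh α f z := by
    intro z
    rw [norm_mul, Complex.norm_real, Real.norm_of_nonneg (Real.exp_pos _).le, hh]
  have hc := hh_cont α hf.continuous
  by_cases htop : p = ⊤
  · subst htop
    obtain ⟨C, hC⟩ : ∃ C : ℝ, ∀ᵐ z : EE n, hh α f z ≤ C := by
      have h1 := hfp.eLpNorm_lt_top
      rw [eLpNorm_exponent_top] at h1
      refine ⟨(eLpNormEssSup (fun z => f z * (Real.exp (-(α / 2 * ‖z‖ ^ 2)) : ℂ)) volume).toReal, ?_⟩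
      filter_upwards [ae_le_eLpNormEssSup (f := fun z : EE n =>
        f z * (Real.exp (-(α / 2 * ‖z‖ ^ 2)) : ℂ)) (μ := volume)] with z hz
      rw [← hnorm z]
      have h2 := ENNReal.toReal_mono h1.ne hz
      simpa using h2
    have hall : ∀ z, hh α f z ≤ C := by
      intro z
      by_contra hcon
      rw [not_le] at hcon
      have hopen : IsOpen {z | C < hh α f z} := isOpen_lt continuous_const hc
      have hzero : volume {z : EE n | C < hh α f z} = 0 := by
        have : {z : EE n | C < hh α f z} = {z | ¬ hh α f z ≤ C} := by ext; simp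
        rw [this]
        exact hC
      have hempty := (hopen.measure_eq_zero_iff volume).mp hzero
      have : z ∈ ({z | C < hh α f z} : Set (EE n)) := hcon
      rw [hempty] at this
      exact this
    have hC0 : 0 ≤ C := (hh_nonneg α f 0).trans (hall 0)
    exact ⟨fun _ => C, continuous_const, fun _ => hC0, memLp_top_const C, fun z ξ _ => hall _⟩
  · obtain ⟨r, hr⟩ : ∃ r : ℝ, r = p.toReal := ⟨_, rfl⟩
    have hr0 : 0 < r := by rw [hr]; exact ENNReal.toReal_pos hp htop
    have hH : Integrable (fun z => hh α f z ^ r) := by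
      have h1 := hfp.integrable_norm_rpow hp htop
      refine h1.congr (Filter.Eventually.of_forall fun z => ?_)
      simp only [hnorm, hr]
    obtain ⟨C, hC0, hC⟩ := hh_sub hα hf hr0
    -- the bump
    obtain ⟨ψ, hψ⟩ : ∃ ψ : EE n → ℝ, ψ = fun v => max 0 (4 - ‖v‖) := ⟨_, rfl⟩
    have hψc : Continuous ψ := by rw [hψ]; fun_prop
    have hψs : HasCompactSupport ψ := by
      apply HasCompactSupport.intro (isCompact_closedBall (0 : EE n) 4)
      intro v hv
      rw [mem_closedBall_zero_iff, not_le] at hv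
      rw [hψ]
      simp only
      rw [max_eq_left (by linarith)]
    have hψ0 : ∀ v, 0 ≤ ψ v := by intro v; rw [hψ]; exact le_max_left _ _
    have hψ1 : ∀ v, ‖v‖ ≤ 3 → 1 ≤ ψ v := by
      intro v hv
      rw [hψ]
      exact le_max_of_le_right (by linarith)
    obtain ⟨G, hG⟩ : ∃ G : EE n → ℝ, G = convolution ψ (fun z => hh α f z ^ r)
      (ContinuousLinearMap.lsmul ℝ ℝ) volume := ⟨_, rfl⟩
    have hHc : Continuous (fun z => hh α f z ^ r) := hc.rpow_const fun z => Or.inr hr0.le
    have hGc : Continuous G := by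
      rw [hG]
      exact hψs.continuous_convolution_left _ hψc hHc.locallyIntegrable
    have hGi : Integrable G := by
      rw [hG]
      exact (hψc.integrable_of_hasCompactSupport hψs).integrable_convolution _ hH
    have hGx : ∀ z, G z = ∫ t, ψ t * hh α f (z - t) ^ r := by
      intro z
      rw [hG, convolution_def]
      rfl
    have hG0 : ∀ z, 0 ≤ G z := by
      intro z
      rw [hGx]
      apply integral_nonneg
      intro t
      have := hψ0 t
      have := hh_nonneg α f (z - t)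
      positivity
    have hkey : ∀ z ξ : EE n, ‖ξ‖ ≤ 2 → hh α f (z + ξ) ^ r ≤ C * G z := by
      intro z ξ hξ
      refine (hC (z + ξ)).trans ?_
      gcongr
      rw [hGx, ← integral_indicator Metric.isClosed_closedBall.measurableSet]
      -- substitute `v = -ξ - t`
      rw [← integral_sub_left_eq_self _ volume (-ξ)]
      apply integral_mono_of_nonneg
      · refine Filter.Eventually.of_forall fun t => ?_
        apply indicator_nonneg
        intro v _
        have := hh_nonneg α f (z + ξ + v)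
        positivity
      · have h1 : Continuous (fun t => ψ t * hh α f (z - t) ^ r) :=
          hψc.mul (hHc.comp (by fun_prop))
        apply h1.integrable_of_hasCompactSupport
        exact hψs.mul_right
      · refine Filter.Eventually.of_forall fun t => ?_
        show (Metric.closedBall (0 : EE n) 1).indicator (fun v => hh α f (z + ξ + v) ^ r) (-ξ - t) ≤
          ψ t * hh α f (z - t) ^ r
        by_cases ht : -ξ - t ∈ Metric.closedBall (0 : EE n) 1
        · rw [indicator_of_mem ht]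
          have h1 : z + ξ + (-ξ - t) = z - t := by abel
          rw [h1]
          rw [mem_closedBall_zero_iff] at ht
          have h2 : ‖t‖ ≤ 3 := by
            calc ‖t‖ = ‖-(-ξ - t) - ξ‖ := by congr 1; abel
              _ ≤ ‖-(-ξ - t)‖ + ‖ξ‖ := norm_sub_le _ _
              _ ≤ 3 := by rw [norm_neg]; linarith
          have h3 := hψ1 t h2
          have h4 : 0 ≤ hh α f (z - t) ^ r := by
            have := hh_nonneg α f (z - t)
            positivity
          nlinarith
        · rw [indicator_of_notMem ht]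
          have := hψ0 t
          have := hh_nonneg α f (z - t)
          positivity
    refine ⟨fun z => (C * G z) ^ (1 / r), ?_, ?_, ?_, ?_⟩
    · exact (continuous_const.mul hGc).rpow_const fun z => Or.inr (by positivity)
    · intro z
      have := hG0 z
      positivity
    · have hgc : Continuous (fun z => (C * G z) ^ (1 / r)) :=
        (continuous_const.mul hGc).rpow_const fun z => Or.inr (by positivity)
      rw [← integrable_norm_rpow_iff hgc.aestronglyMeasurable hp htop]
      refine (hGi.const_mul C).congr (Filter.Eventually.of_forall fun z => ?_)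
      have h1 : 0 ≤ C * G z := mul_nonneg hC0 (hG0 z)
      simp only
      rw [Real.norm_of_nonneg (by positivity), ← Real.rpow_mul h1, ← hr, one_div,
        inv_mul_cancel₀ hr0.ne', Real.rpow_one]
    · intro z ξ hξ
      have h1 := hkey z ξ hξ
      have h2 := Real.rpow_le_rpow (by have := hh_nonneg α f (z + ξ); positivity) h1
        (show 0 ≤ 1 / r by positivity)
      rwa [← Real.rpow_mul (hh_nonneg α f _), mul_one_div_cancel hr0.ne', Real.rpow_one] at h2

end Pool.Agent.R444.FK
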