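import Mathlib
import Pool.Agent.Bl169.LogMax

/-!
The sub-mean value property of `|F|^p`.
-/

set_option autoImplicit false

open MeasureTheory Complex Set

namespace Pool.Agent.R444.FK

theorem sub1_aux {f : ℂ → ℂ} (hf : Differentiable ℂ f) {p : ℝ} (hp : 0 < p) {δ : ℝ} (hδ : 0 < δ)
    (h0 : f 0 ≠ 0) :
    2 * Real.pi * ‖f 0‖ ^ p ≤ ∫ θ in (0 : ℝ)..(2 * Real.pi), (‖f (cexp (θ * I))‖ + |δ|) ^ p := by
  have hpi := Real.pi_pos
  rw [abs_of_pos hδ]
  have hcont : Continuous (fun θ : ℝ => ‖f (cexp (θ * I))‖ + δ) := by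
    have := hf.continuous
    fun_prop
  have hpos : ∀ θ : ℝ, 0 < ‖f (cexp (θ * I))‖ + δ := fun θ => by positivity
  have h1 := Pool.Agent.Bl169.log_norm_le f (fun z => hf.analyticAt z) (fun z => ‖f z‖ + δ)
    (by have := hf.continuous; fun_prop) (fun z => by positivity) (fun z => by linarith) h0
  have hclog : Continuous (fun θ : ℝ => p * Real.log (‖f (cexp (θ * I))‖ + δ)) :=
    continuous_const.mul (hcont.log fun θ => (hpos θ).ne')
  have h2 : Real.circleAverage (fun z => Real.log (‖f z‖ + δ)) 0 1 =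
      (2 * Real.pi)⁻¹ * ∫ θ in (0 : ℝ)..(2 * Real.pi), Real.log (‖f (cexp (θ * I))‖ + δ) := by
    rw [Real.circleAverage_def, smul_eq_mul]
    congr 1
    apply intervalIntegral.integral_congr
    intro θ _
    simp [circleMap]
  rw [h2] at h1
  have hvol : volume.real (Ioc (0 : ℝ) (2 * Real.pi)) = 2 * Real.pi := by
    rw [Measure.real, Real.volume_Ioc, sub_zero, ENNReal.toReal_ofReal (by positivity)]
  have hJ := (convexOn_exp).map_set_average_le (μ := volume) (t := Ioc (0 : ℝ) (2 * Real.pi))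
    (f := fun θ : ℝ => p * Real.log (‖f (cexp (θ * I))‖ + δ)) Real.continuous_exp.continuousOn
    isClosed_univ (by simp [hpi]) (by rw [Real.volume_Ioc]; exact ENNReal.ofReal_ne_top) (Filter.Eventually.of_forall fun _ => mem_univ _)
    (hclog.integrableOn_Icc.mono_set Ioc_subset_Icc_self)
    ((Real.continuous_exp.comp hclog).integrableOn_Icc.mono_set Ioc_subset_Icc_self)
  rw [setAverage_eq, setAverage_eq, hvol, smul_eq_mul, smul_eq_mul,
    ← intervalIntegral.integral_of_le (by positivity),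
    ← intervalIntegral.integral_of_le (by positivity), intervalIntegral.integral_const_mul] at hJ
  have h3 : ∀ θ : ℝ, Real.exp (p * Real.log (‖f (cexp (θ * I))‖ + δ)) =
      (‖f (cexp (θ * I))‖ + δ) ^ p := by
    intro θ
    rw [Real.rpow_def_of_pos (hpos θ), mul_comm]
  simp only [h3] at hJ
  have h4 : ‖f 0‖ ^ p ≤ Real.exp ((2 * Real.pi)⁻¹ * (p * ∫ θ in (0 : ℝ)..(2 * Real.pi),
      Real.log (‖f (cexp (θ * I))‖ + δ))) := by
    rw [Real.rpow_def_of_pos (norm_pos_iff.mpr h0), Real.exp_le_exp]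
    calc Real.log ‖f 0‖ * p ≤ ((2 * Real.pi)⁻¹ * ∫ θ in (0 : ℝ)..(2 * Real.pi),
          Real.log (‖f (cexp (θ * I))‖ + δ)) * p := by gcongr
      _ = _ := by ring
  have h5 := h4.trans hJ
  rw [inv_mul_eq_div, le_div_iff₀ (by positivity)] at h5
  linarith

theorem sub1 {f : ℂ → ℂ} (hf : Differentiable ℂ f) {p : ℝ} (hp : 0 < p) :
    2 * Real.pi * ‖f 0‖ ^ p ≤ ∫ θ in (0 : ℝ)..(2 * Real.pi), ‖f (cexp (θ * I))‖ ^ p := by
  have hpi := Real.pi_pos
  by_cases h0 : f 0 = 0
  · rw [h0, norm_zero, Real.zero_rpow hp.ne', mul_zero]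
    apply intervalIntegral.integral_nonneg (by positivity)
    intro θ _
    positivity
  · have hc : Continuous (fun δ : ℝ => ∫ θ in (0 : ℝ)..(2 * Real.pi),
        (‖f (cexp (θ * I))‖ + |δ|) ^ p) := by
      apply intervalIntegral.continuous_parametric_intervalIntegral_of_continuous'
      have h1 : Continuous (fun q : ℝ × ℝ => ‖f (cexp (q.2 * I))‖ + |q.1|) := by
        have := hf.continuous
        fun_prop
      exact h1.rpow_const fun q => Or.inr hp.le
    have h1 := (hc.tendsto 0).mono_left (nhdsWithin_le_nhds (s := Ioi 0))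
    simp only [abs_zero, add_zero] at h1
    apply ge_of_tendsto h1
    filter_upwards [self_mem_nhdsWithin] with δ hδ
    exact sub1_aux hf hp hδ h0

abbrev EE (n : ℕ) := EuclideanSpace ℂ (Fin n)

/-- multiplication by a number of modulus one -/
noncomputable def rot {n : ℕ} (c : ℂ) (hc : ‖c‖ = 1) : EE n ≃ₗᵢ[ℝ] EE n where
  toFun v := c • v
  invFun v := c⁻¹ • v
  map_add' x y := smul_add c x y
  map_smul' r v := smul_comm c r v
  left_inv v := by
    have : c ≠ 0 := by rintro rfl; simp at hc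
    simp [smul_smul, inv_mul_cancel₀ this]
  right_inv v := by
    have : c ≠ 0 := by rintro rfl; simp at hc
    simp [smul_smul, mul_inv_cancel₀ this]
  norm_map' v := by
    show ‖c • v‖ = ‖v‖
    rw [norm_smul, hc, one_mul]

theorem subE {n : ℕ} {F : EE n → ℂ} (hF : Differentiable ℂ F) {p : ℝ} (hp : 0 < p) :
    ‖F 0‖ ^ p * volume.real (Metric.closedBall (0 : EE n) 1) ≤
      ∫ v in Metric.closedBall (0 : EE n) 1, ‖F v‖ ^ p := by
  have hpi := Real.pi_pos
  set B := Metric.closedBall (0 : EE n) 1 with hB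
  have hBc : IsCompact B := isCompact_closedBall _ _
  have hBm : MeasurableSet B := Metric.isClosed_closedBall.measurableSet
  have hexp1 : ∀ θ : ℝ, ‖cexp (θ * I)‖ = 1 := fun θ => norm_exp_ofReal_mul_I θ
  have hrot : ∀ θ : ℝ, ∫ v in B, ‖F (cexp (θ * I) • v)‖ ^ p = ∫ v in B, ‖F v‖ ^ p := by
    intro θ
    have h1 := (rot (n := n) (cexp (θ * I)) (hexp1 θ)).measurePreserving
    have h2 := h1.setIntegral_preimage_emb
      (rot (n := n) (cexp (θ * I)) (hexp1 θ)).toHomeomorph.measurableEmbedding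
      (fun v => ‖F v‖ ^ p) B
    have h3 : (rot (n := n) (cexp (θ * I)) (hexp1 θ)) ⁻¹' B = B := by
      ext v
      rw [mem_preimage, hB, mem_closedBall_zero_iff, mem_closedBall_zero_iff,
        LinearIsometryEquiv.norm_map]
    rw [h3] at h2
    exact h2
  have hcont : Continuous (fun q : ℝ × EE n => ‖F (cexp (q.1 * I) • q.2)‖ ^ p) := by
    have h1 : Continuous (fun q : ℝ × EE n => ‖F (cexp (q.1 * I) • q.2)‖) := by
      have := hF.continuous
      fun_prop
    exact h1.rpow_const fun q => Or.inr hp.le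
  have hint : Integrable (Function.uncurry fun (θ : ℝ) (v : EE n) => ‖F (cexp (θ * I) • v)‖ ^ p)
      ((volume.restrict (Ioc 0 (2 * Real.pi))).prod (volume.restrict B)) := by
    rw [Measure.prod_restrict]
    have h1 : IntegrableOn (fun q : ℝ × EE n => ‖F (cexp (q.1 * I) • q.2)‖ ^ p)
        (Icc 0 (2 * Real.pi) ×ˢ B) (volume.prod volume) :=
      hcont.continuousOn.integrableOn_compact (isCompact_Icc.prod hBc)
    exact h1.mono_set (prod_mono Ioc_subset_Icc_self le_rfl)
  have hswap := integral_integral_swap hint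
  have hL : ∫ θ in Ioc 0 (2 * Real.pi), (∫ v in B, ‖F (cexp ((θ : ℝ) * I) • v)‖ ^ p) =
      2 * Real.pi * ∫ v in B, ‖F v‖ ^ p := by
    rw [setIntegral_congr_fun measurableSet_Ioc (fun θ _ => hrot θ), setIntegral_const,
      Measure.real, Real.volume_Ioc, sub_zero, ENNReal.toReal_ofReal (by positivity), smul_eq_mul]
  have hR : 2 * Real.pi * (‖F 0‖ ^ p * volume.real B) ≤
      ∫ v in B, (∫ θ in Ioc 0 (2 * Real.pi), ‖F (cexp ((θ : ℝ) * I) • v)‖ ^ p) := by
    have h1 : 2 * Real.pi * (‖F 0‖ ^ p * volume.real B) =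
        ∫ _v in B, (2 * Real.pi * ‖F 0‖ ^ p) := by
      rw [setIntegral_const, smul_eq_mul]
      ring
    rw [h1]
    apply setIntegral_mono_on
    · exact integrableOn_const hBc.measure_ne_top
    · exact hint.integral_prod_right
    · exact hBm
    · intro v _
      have h2 := sub1 (f := fun t : ℂ => F (t • v)) (hF.comp (by fun_prop)) hp
      rw [zero_smul] at h2
      rw [← intervalIntegral.integral_of_le (by positivity)]
      exact h2
  have h1 : 2 * Real.pi * (‖F 0‖ ^ p * volume.real B) ≤ 2 * Real.pi * ∫ v in B, ‖F v‖ ^ p := by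
    rw [← hL]
    exact hR.trans (le_of_eq hswap.symm)
  exact le_of_mul_le_mul_left h1 (by positivity)

end Pool.Agent.R444.FK
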